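import Mathlib

set_option autoImplicit false

namespace Pool.Agent.Results.MP_06047d_an.ExtraPeriods

/-- Real solutions of the recurrence of order k (indexed from 0). -/
def IsSol (k : ℕ) (x : ℕ → ℝ) : Prop :=
  ∀ n, x (n + k) = (Finset.range (k - 1)).fold max 0 (fun i => x (n + 1 + i)) - x n

/-- N is the least period of x. -/
def IsPeriod (x : ℕ → ℝ) (N : ℕ) : Prop :=
  0 < N ∧ (∀ n, x (n + N) = x n) ∧ ∀ M, 0 < M → (∀ n, x (n + M) = x n) → N ≤ M

/-- The set of periods of periodic solutions. -/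
def Per (k : ℕ) : Set ℕ := {N | ∃ x, IsSol k x ∧ IsPeriod x N}

/-- The conjectured superset. -/
def Conj (k : ℕ) : Set ℕ :=
  {1, if Even k then 1 else 2, 2 * k, 3 * k - 1} ∪
    {N | ∃ a b : ℕ, 1 ≤ a ∧ 1 ≤ b ∧ Nat.gcd a b = 1 ∧ N = (3 * k - 2) * a + (3 * k - 1) * b}

lemma fold_cast (m : ℕ) (g : ℕ → ℤ) :
    (Finset.range m).fold max (0 : ℝ) (fun i => (g i : ℝ)) =
      (((Finset.range m).fold max 0 g : ℤ) : ℝ) := by
  induction m with
  | zero => simp
  | succ m ih =>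
    rw [Finset.range_add_one, Finset.fold_insert (by simp), Finset.fold_insert (by simp), ih]
    push_cast; rfl

lemma mem_per (k N : ℕ) (hN : 0 < N) (L : List ℤ)
    (h1 : ∀ n < N, L.getD ((n + k) % N) 0 =
      (Finset.range (k - 1)).fold max 0 (fun i => L.getD ((n + 1 + i) % N) 0) - L.getD n 0)
    (h2 : ∀ M < N, 0 < M → ∃ n < N, L.getD ((n + M) % N) 0 ≠ L.getD n 0) : N ∈ Per k := by
  refine ⟨fun n => (L.getD (n % N) 0 : ℤ), fun n => ?_, hN, fun n => by simp, fun M hM h => ?_⟩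
  · have := h1 (n % N) (Nat.mod_lt _ hN)
    simp only
    rw [fold_cast (k - 1) (fun i => L.getD ((n + 1 + i) % N) 0)]
    have e1 : (n % N + k) % N = (n + k) % N := by simp
    have e2 : ∀ i, (n % N + 1 + i) % N = (n + 1 + i) % N := fun i => by
      rw [add_assoc, add_assoc]; simp
    simp only [e1, e2] at this
    rw [this]; push_cast; rfl
  · by_contra hlt
    obtain ⟨n, hn, hne⟩ := h2 M (not_le.mp hlt) hM
    have := h n
    simp only [Nat.mod_eq_of_lt hn] at this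
    exact hne (by exact_mod_cast this)

lemma fam (d m : ℕ) (hd : Odd d) (hd3 : 3 ≤ d) (hm : 2 ≤ m) : 2 * m ∈ Per (d * m) := by
  have hm0 : 0 < m := by omega
  set x : ℕ → ℝ := fun n => if Even (n / m) then 1 else 0 with hx
  have hle : ∀ n, x n ≤ 1 := fun n => by simp only [hx]; split_ifs <;> norm_num
  refine ⟨x, fun n => ?_, by omega, fun n => ?_, fun M hM h => ?_⟩
  · have e : (Finset.range (d * m - 1)).fold max 0 (fun i => x (n + 1 + i)) = 1 := by
      apply le_antisymm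
      · exact (Finset.fold_max_le _).mpr ⟨zero_le_one, fun i _ => hle _⟩
      · refine (Finset.le_fold_max _).mpr (Or.inr ?_)
        have h3 : 3 * m ≤ d * m := Nat.mul_le_mul_right _ hd3
        by_cases h : Even ((n + 1) / m)
        · exact ⟨0, by simp; omega, by simp [hx, h]⟩
        · refine ⟨m, by simp; omega, ?_⟩
          simp only [hx]
          rw [Nat.add_div_right _ hm0, if_pos (Nat.even_add_one.mpr h)]
    rw [e]
    simp only [hx]
    rw [Nat.add_mul_div_right _ _ hm0]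
    by_cases h : Even (n / m)
    · rw [if_pos h, if_neg (Nat.not_even_iff_odd.mpr (h.add_odd hd))]; norm_num
    · rw [if_neg h, if_pos ((Nat.not_even_iff_odd.mp h).add_odd hd)]; norm_num
  · simp only [hx]
    rw [Nat.add_mul_div_right _ _ hm0]
    simp [Nat.even_add]
  · by_contra hlt
    have hlt' : M < 2 * m := not_le.mp hlt
    have one : ∀ j, j < m → x j = 1 := fun j hj => by simp [hx, Nat.div_eq_of_lt hj]
    have zero : ∀ j, m ≤ j → j < 2 * m → x j = 0 := fun j h1 h2 => by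
      have : j / m = 1 := Nat.div_eq_of_lt_le (by omega) (by omega)
      simp [hx, this]
    by_cases hMm : M ≤ m
    · have := h (m - M)
      rw [zero _ (by omega) (by omega), one _ (by omega)] at this
      norm_num at this
    · have := h 0
      rw [zero _ (by omega) (by omega), one _ hm0] at this
      norm_num at this

theorem result :
    (54 ∈ Per 5 ∧ 54 ∉ Conj 5) ∧ (19 ∈ Per 7 ∧ 19 ∉ Conj 7) ∧ (22 ∈ Per 8 ∧ 22 ∉ Conj 8) ∧
    (∀ d m : ℕ, Odd d → 3 ≤ d → 2 ≤ m → 2 * m ∈ Per (d * m) ∧ 2 * m ∉ Conj (d * m)) ∧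
    ¬ ∀ k, 5 ≤ k → Per k ⊆ Conj k := by
  have a5 : 54 ∈ Per 5 := mem_per 5 54 (by norm_num)
    [-1, 1, 1, 0, 0, 2, 1, 1, 2, 2, 0, 1, 1, 0, -1, 1, 0, 0, 1, 2, 1, 2, 2, 1, 0, 1, 0, -1, 0, 1,
      0, 1, 2, 2, 1, 2, 1, 0, 0, 1, -1, 0, 1, 1, 0, 2, 2, 1, 1, 2, 0, 0, 1, 1]
    (by decide +kernel) (by decide +kernel)
  have b5 : 54 ∉ Conj 5 := by
    rintro (h | ⟨a, b, ha, hb, hg, h⟩)
    · simp at h; split_ifs at h <;> omega
    · have : a = 2 ∧ b = 2 := by omega
      rw [this.1, this.2] at hg; norm_num at hg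
  refine ⟨⟨a5, b5⟩, ⟨?_, ?_⟩, ⟨?_, ?_⟩, fun d m hd hd3 hm => ⟨fam d m hd hd3 hm, ?_⟩,
    fun h => b5 (h 5 le_rfl a5)⟩
  · exact mem_per 7 19 (by norm_num) [1, 1, 0, -1, 0, 1, 1, 0, 0, 1, 2, 2, 1, 1, 2, 2, 1, 0, 0]
      (by decide +kernel) (by decide +kernel)
  · rintro (h | ⟨a, b, ha, hb, hg, h⟩)
    · simp at h; split_ifs at h <;> omega
    · omega
  · exact mem_per 8 22 (by norm_num)
      [1, 0, -1, 0, 1, 1, 0, -1, 0, 1, 2, 2, 1, 1, 2, 3, 3, 2, 1, 1, 2, 2]
      (by decide +kernel) (by decide +kernel)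
  · rintro (h | ⟨a, b, ha, hb, hg, h⟩)
    · simp at h; split_ifs at h <;> omega
    · omega
  · have h3 : 3 * m ≤ d * m := Nat.mul_le_mul_right _ hd3
    generalize d * m = k at h3 ⊢
    rintro (h | ⟨a, b, ha, hb, hg, h⟩)
    · simp only [Set.mem_insert_iff, Set.mem_singleton_iff] at h
      split_ifs at h <;> omega
    · have h1 : 3 * k - 2 ≤ (3 * k - 2) * a := Nat.le_mul_of_pos_right _ ha
      omega

end Pool.Agent.Results.MP_06047d_an.ExtraPeriods
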